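import Pool.Agent.KS6_11.LindExt.Strong

/-!
# The strong extension theorem for simplices and dual balls of preduals
-/
open Set Filter Topology MeasureTheory

namespace Pool.Agent.KS6_11.LindExt

open C64

/-- Trivial case: the compact convex set is a point. -/
theorem strong_zero {𝕜 : Type*} [RCLike 𝕜] {V : Type*} [AddCommGroup V] [Module ℝ V]
    [TopologicalSpace V] [IsTopologicalAddGroup V] [ContinuousSMul ℝ V] [LocallyConvexSpace ℝ V]
    [T2Space V]
    {F : Type*} [AddCommGroup F] [Module ℝ F] [Module 𝕜 F] [IsScalarTower ℝ 𝕜 F] [UniformSpace F]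
    [IsUniformAddGroup F] [ContinuousSMul 𝕜 F] [ContinuousSMul ℝ F] [LocallyConvexSpace ℝ F]
    [T2Space F] [CompleteSpace F] [FirstCountableTopology F]
    {X : Set V} (hX : IsCompact X) (hc : Convex ℝ X) {f : V → F}
    (hf : ∀ y ∈ X.extremePoints ℝ, f y = 0) : IsStrongExt 𝕜 X f (fun _ => 0) := by
  refine strongExt_of (h := fun _ _ => 0) hX hc
      (fun n => ⟨continuousOn_const, ?_⟩) (fun n => ⟨⊥, inferInstance, fun x =>
        Submodule.zero_mem _⟩) ?_ (fun x _ => tendsto_const_nhds) ?_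
  · intro x _ y _ t _
    change (0 : F) = t • 0 + (1 - t) • 0
    rw [smul_zero, smul_zero, add_zero]
  · refine (Bornology.isVonNBounded_singleton (0 : F)).subset ?_
    intro v hv
    obtain ⟨n, hn⟩ := mem_iUnion.1 hv
    obtain ⟨x, _, rfl⟩ := hn
    exact rfl
  · intro y hy
    exact (hf y hy).symm

/-- Affine Baire-one maps are affine. -/
theorem A1_aff {V : Type*} [AddCommGroup V] [Module ℝ V] [TopologicalSpace V]
    {F : Type*} [AddCommGroup F] [Module ℝ F] [TopologicalSpace F] [IsTopologicalAddGroup F]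
    [ContinuousSMul ℝ F] [T2Space F] {X : Set V} (hc : Convex ℝ X) {g : V → F} (hg : A1 X g) :
    IsAffOn X g := by
  obtain ⟨h, hh, hl⟩ := hg
  intro x hx y hy t ht
  have hm : t • x + (1 - t) • y ∈ X := hc hx hy ht.1 (by linarith [ht.2]) (by ring)
  have h1 := hl _ hm
  have h2 : Tendsto (fun n => t • h n x + (1 - t) • h n y) atTop
      (𝓝 (t • g x + (1 - t) • g y)) := ((hl x hx).const_smul t).add ((hl y hy).const_smul (1 - t))
  refine tendsto_nhds_unique h1 (h2.congr fun n => ?_)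
  exact ((hh n).2 x hx y hy t ht).symm

/-- A strong extension of a homogeneous map from the extreme points of a circled compact convex
set is homogeneous. -/
theorem hom_gen {𝕜 : Type*} [RCLike 𝕜] {V : Type*} [AddCommGroup V] [Module ℝ V] [Module 𝕜 V]
    [TopologicalSpace V]
    {F : Type*} [AddCommGroup F] [Module ℝ F] [Module 𝕜 F] [IsScalarTower ℝ 𝕜 F] [UniformSpace F]
    [IsUniformAddGroup F] [ContinuousSMul 𝕜 F] [ContinuousSMul ℝ F] [LocallyConvexSpace ℝ F]
    [T2Space F] [CompleteSpace F] [FirstCountableTopology F]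
    {X : Set V} (hc : Convex ℝ X) (h0 : (0 : V) ∈ X)
    (hcs : ∀ α : 𝕜, Continuous fun x : V => α • x)
    (hreal : ∀ (r : ℝ) (x : V), r • x = (r : 𝕜) • x)
    (hst : ∀ α : 𝕜, ‖α‖ = 1 → ∀ x ∈ X, α • x ∈ X)
    (hste : ∀ α : 𝕜, ‖α‖ = 1 → ∀ x ∈ X.extremePoints ℝ, α • x ∈ X.extremePoints ℝ)
    {f g : V → F} (hg : IsStrongExt 𝕜 X f g)
    (hhom : ∀ y ∈ X.extremePoints ℝ, ∀ α : 𝕜, ‖α‖ = 1 → f (α • y) = α • f y) :
    ∀ x ∈ X, ∀ α : 𝕜, ‖α‖ ≤ 1 → g (α • x) = α • g x := by
  have hcomm : ∀ (a : ℝ) (c : 𝕜) (x : V), a • c • x = c • a • x := by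
    intro a c x
    rw [hreal, hreal, smul_smul, smul_smul, mul_comm]
  obtain ⟨he, ⟨h, hh, hl, _, _⟩, _, huniq⟩ := hg
  have key : ∀ α : 𝕜, ‖α‖ = 1 → ∀ x ∈ X, g (α • x) = α • g x := by
    intro α hα x hx
    have hα0 : α ≠ 0 := by
      intro h
      rw [h, norm_zero] at hα
      exact zero_ne_one hα
    have h1 := huniq (fun x => α⁻¹ • g (α • x)) ⟨fun n x => α⁻¹ • h n (α • x), ?_, ?_⟩ ?_ hx
    · have h2 : α⁻¹ • g (α • x) = g x := h1
      rw [← h2, smul_smul, mul_inv_cancel₀ hα0, one_smul]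
    · intro n
      refine ⟨?_, ?_⟩
      · exact ((hh n).1.comp (hcs α).continuousOn (fun x hx => hst α hα x hx)).const_smul α⁻¹
      · intro x hx y hy t ht
        change α⁻¹ • h n (α • (t • x + (1 - t) • y)) =
          t • α⁻¹ • h n (α • x) + (1 - t) • α⁻¹ • h n (α • y)
        rw [smul_add, ← hcomm t, ← hcomm (1 - t),
          (hh n).2 _ (hst α hα x hx) _ (hst α hα y hy) t ht, smul_add,
          smul_comm α⁻¹ t, smul_comm α⁻¹ (1 - t)]
    · intro x hx
      exact (hl _ (hst α hα x hx)).const_smul α⁻¹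
    · intro y hy
      change α⁻¹ • g (α • y) = f y
      rw [he (hste α hα y hy), hhom y hy α hα, smul_smul, inv_mul_cancel₀ hα0, one_smul]
  have haff := A1_aff hc ⟨h, hh, hl⟩
  have hg0 : g 0 = 0 := by
    have h1 := key (-1) (by rw [norm_neg, norm_one]) 0 h0
    rw [smul_zero, neg_one_smul] at h1
    have h2 : (2 : 𝕜) • g 0 = 0 := by
      rw [two_smul]
      nth_rewrite 1 [h1]
      exact neg_add_cancel _
    exact (smul_eq_zero.1 h2).resolve_left two_ne_zero
  intro x hx α hα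
  by_cases hα0 : α = 0
  · rw [hα0, zero_smul, zero_smul, hg0]
  · have hn : 0 < ‖α‖ := norm_pos_iff.2 hα0
    have hβ : ∃ β : 𝕜, ‖β‖ = 1 ∧ α = ((‖α‖ : ℝ) : 𝕜) * β := by
      refine ⟨((‖α‖⁻¹ : ℝ) : 𝕜) * α, ?_, ?_⟩
      · rw [norm_mul, RCLike.norm_ofReal, abs_of_pos (inv_pos.2 hn), inv_mul_cancel₀ hn.ne']
      · rw [← mul_assoc, ← RCLike.ofReal_mul, mul_inv_cancel₀ hn.ne', RCLike.ofReal_one, one_mul]
    obtain ⟨β, hβ1, hαβ⟩ := hβ
    have h1 := haff (β • x) (hst β hβ1 x hx) 0 h0 ‖α‖ ⟨hn.le, hα⟩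
    rw [smul_zero, add_zero, hg0, smul_zero, add_zero, key β hβ1 x hx] at h1
    have h2 : α • x = ‖α‖ • β • x := by
      rw [hreal, smul_smul, ← hαβ]
    have h3 : α • g x = ‖α‖ • β • g x := by
      rw [RCLike.real_smul_eq_coe_smul (K := 𝕜), smul_smul, ← hαβ]
    rw [h2, h3, h1]

theorem main_S_strong {V : Type*} [AddCommGroup V] [Module ℝ V] [TopologicalSpace V]
    [IsTopologicalAddGroup V] [ContinuousSMul ℝ V] [LocallyConvexSpace ℝ V] [T2Space V]
    {F : Type*} [AddCommGroup F] [Module ℝ F] [UniformSpace F] [IsUniformAddGroup F]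
    [ContinuousSMul ℝ F] [LocallyConvexSpace ℝ F] [T2Space F] [CompleteSpace F]
    [FirstCountableTopology F]
    {X : Set V} (hX : IsCompact X) (hc : Convex ℝ X) (hs : IsSimplex X)
    (hL : IsLindelof (X.extremePoints ℝ))
    (f : V → F) (hf : ContinuousOn f (X.extremePoints ℝ))
    (hb : Bornology.IsVonNBounded ℝ (f '' X.extremePoints ℝ)) :
    ∃ g : V → F, IsStrongExt ℝ X f g := by
  refine vector_ext_strong (𝕜 := ℝ) hX hc hL {1} ?_ ?_ ?_ ?_ f hf hb ?_
  · rintro α rfl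
    exact norm_one
  · rintro α rfl y hy
    rw [one_smul]
    exact hy
  · intro y₀ _
    refine ⟨fun _ => 1, continuousOn_const, ?_, ?_, one_ne_zero⟩
    · rintro α rfl y _
      rw [mul_one]
    · intro y _
      rw [norm_one]
  · intro ψ hψ _ hψb
    obtain ⟨l, t, hl, hlt⟩ := SA_S hX hc hs hL ψ hψ (fun y hy => hψb y hy)
    refine ⟨fun n x => l n x + t n, ?_, ?_, hlt⟩
    · intro n
      refine ⟨((l n).continuous.add continuous_const).continuousOn, ?_⟩
      intro x _ y _ s _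
      change l n (s • x + (1 - s) • y) + t n = s • (l n x + t n) + (1 - s) • (l n y + t n)
      rw [map_add, map_smul, map_smul]
      simp only [smul_eq_mul]
      ring
    · intro n x hx
      exact hl n x hx
  · rintro α rfl y _
    rw [one_smul, one_smul]

theorem main_RC_strong.{u, v, w, z} {𝕜 : Type u} {E : Type v} [RCLike 𝕜] [NormedAddCommGroup E]
    [NormedSpace 𝕜 E] [CompleteSpace E] (hE : IsL1Predual.{u, v, w} 𝕜 E)
    {F : Type z} [AddCommGroup F] [Module ℝ F] [Module 𝕜 F] [IsScalarTower ℝ 𝕜 F] [UniformSpace F]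
    [IsUniformAddGroup F] [ContinuousSMul 𝕜 F] [ContinuousSMul ℝ F] [LocallyConvexSpace ℝ F]
    [T2Space F] [CompleteSpace F] [FirstCountableTopology F]
    (hL : IsLindelof ((dualBall 𝕜 E).extremePoints ℝ)) (f : WeakDual 𝕜 E → F)
    (hf : ContinuousOn f ((dualBall 𝕜 E).extremePoints ℝ))
    (hb : Bornology.IsVonNBounded ℝ (f '' (dualBall 𝕜 E).extremePoints ℝ))
    (hhom : ∀ y ∈ (dualBall 𝕜 E).extremePoints ℝ, ∀ α : 𝕜, ‖α‖ = 1 → f (α • y) = α • f y) :
    ∃ g : WeakDual 𝕜 E → F, IsStrongExt 𝕜 (dualBall 𝕜 E) f g := by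
  by_cases h0 : (0 : WeakDual 𝕜 E) ∈ (dualBall 𝕜 E).extremePoints ℝ
  · -- the dual ball is a point
    have hball : ∀ y ∈ dualBall 𝕜 E, y = 0 := by
      intro y hy
      rw [mem_extremePoints] at h0
      have h1 : (0 : WeakDual 𝕜 E) ∈ openSegment ℝ y ((-1 : 𝕜) • y) := by
        refine ⟨1 / 2, 1 / 2, by norm_num, by norm_num, by norm_num, ?_⟩
        rw [neg_one_smul, smul_neg, add_neg_cancel]
      exact (h0.2 _ hy _ (smul_mem_dualBall (by rw [norm_neg, norm_one]) hy) h1).1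
    have hf0 : f 0 = 0 := by
      have h1 := hhom 0 h0 (-1) (by rw [norm_neg, norm_one])
      rw [smul_zero, neg_one_smul] at h1
      have h2 : (2 : 𝕜) • f 0 = 0 := by
        rw [two_smul]
        nth_rewrite 1 [h1]
        exact neg_add_cancel _
      exact (smul_eq_zero.1 h2).resolve_left two_ne_zero
    have hz := @strong_zero 𝕜 _ (WeakDual 𝕜 E) _ _ _ _ _ _ _ F _ _ _ _ _ _ _ _ _ _ _ _
      (dualBall 𝕜 E)
    have hz2 := hz isCompact_dualBall
    have hz3 := @hz2 convex_dualBall f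
    refine ⟨fun _ => 0, hz3 ?_⟩
    intro y hy
    rw [hball y hy.1, hf0]
  · have hev : ∀ e : E, Continuous fun y : WeakDual 𝕜 E => y e := fun e =>
      WeakDual.eval_continuous e
    have key := @vector_ext_strong 𝕜 _ (WeakDual 𝕜 E) _ _ _ _ _ _ _ _ F _ _ _ _ _ _ _ _ _ _ _ _
      (dualBall 𝕜 E)
    have key2 := key isCompact_dualBall
    have key3 := key2 convex_dualBall
    have key4 := key3 hL {α | ‖α‖ = 1} (fun α hα => hα) (fun α hα y hy => smul_mem_ext hα hy)
    refine key4 ?_ ?_ f hf hb (fun α hα y hy => hhom y hy α hα)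
    · intro y₀ hy₀
      have hne : y₀ ≠ 0 := by
        rintro rfl
        exact h0 hy₀
      obtain ⟨e, he⟩ : ∃ e : E, y₀ e ≠ 0 := by
        by_contra hcon
        push Not at hcon
        exact hne (DFunLike.ext _ _ hcon)
      have he0 : e ≠ 0 := by
        rintro rfl
        exact he (map_zero y₀)
      have hen : 0 < ‖e‖ := norm_pos_iff.2 he0
      refine ⟨fun y => ((‖e‖⁻¹ : ℝ) : 𝕜) * y e, ?_, ?_, ?_, ?_⟩
      · exact (continuous_const.mul (hev e)).continuousOn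
      · intro α _ y _
        change ((‖e‖⁻¹ : ℝ) : 𝕜) * (α * y e) = α * (((‖e‖⁻¹ : ℝ) : 𝕜) * y e)
        ring
      · intro y hy
        have h1 : ‖WeakDual.toStrongDual y‖ ≤ 1 := hy.1
        have h2 : ‖y e‖ ≤ ‖WeakDual.toStrongDual y‖ * ‖e‖ :=
          (WeakDual.toStrongDual y).le_opNorm e
        rw [norm_mul, RCLike.norm_ofReal, abs_of_pos (inv_pos.2 hen), inv_mul_le_iff₀ hen]
        nlinarith
      · have : ((‖e‖⁻¹ : ℝ) : 𝕜) ≠ 0 := by
          rw [Ne, RCLike.ofReal_eq_zero]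
          exact (inv_pos.2 hen).ne'
        exact mul_ne_zero this he
    · intro ψ hψ hψh hψb
      obtain ⟨a, ha, hal⟩ := SA_RC hE hL ψ hψ (fun y hy α hα => hψh α hα y hy) hψb
      refine ⟨fun n x => x (a n), ?_, ?_, hal⟩
      · intro n
        refine ⟨(hev (a n)).continuousOn, ?_⟩
        intro x _ y _ t _
        rfl
      · intro n x hx
        have h1 : ‖WeakDual.toStrongDual x‖ ≤ 1 := hx
        have h2 : ‖x (a n)‖ ≤ ‖WeakDual.toStrongDual x‖ * ‖a n‖ :=
          (WeakDual.toStrongDual x).le_opNorm (a n)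
        have h3 := ha n
        change ‖x (a n)‖ ≤ 2
        nlinarith [norm_nonneg (a n), norm_nonneg (WeakDual.toStrongDual x)]



/-- A strong extension of a homogeneous map from the extreme points of a dual ball is
homogeneous. -/
theorem hom_of_strong {𝕜 : Type*} {E : Type*} [RCLike 𝕜] [NormedAddCommGroup E]
    [NormedSpace 𝕜 E]
    {F : Type*} [AddCommGroup F] [Module ℝ F] [Module 𝕜 F] [IsScalarTower ℝ 𝕜 F] [UniformSpace F]
    [IsUniformAddGroup F] [ContinuousSMul 𝕜 F] [ContinuousSMul ℝ F] [LocallyConvexSpace ℝ F]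
    [T2Space F] [CompleteSpace F] [FirstCountableTopology F]
    {f g : WeakDual 𝕜 E → F} (hg : IsStrongExt 𝕜 (dualBall 𝕜 E) f g)
    (hhom : ∀ y ∈ (dualBall 𝕜 E).extremePoints ℝ, ∀ α : 𝕜, ‖α‖ = 1 → f (α • y) = α • f y) :
    ∀ x ∈ dualBall 𝕜 E, ∀ α : 𝕜, ‖α‖ ≤ 1 → g (α • x) = α • g x := by
  have h0 : (0 : WeakDual 𝕜 E) ∈ dualBall 𝕜 E := by
    change ‖WeakDual.toStrongDual (0 : WeakDual 𝕜 E)‖ ≤ 1
    rw [map_zero, norm_zero]
    exact zero_le_one
  have key := @hom_gen 𝕜 _ (WeakDual 𝕜 E) _ _ _ _ F _ _ _ _ _ _ _ _ _ _ _ _ (dualBall 𝕜 E)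
  have key2 := key convex_dualBall h0
  have key3 := key2 (fun α => continuous_const_smul α)
  have key4 := key3 (by
    intro r x
    apply DFunLike.ext
    intro e
    change r • x e = (r : 𝕜) • x e
    rw [RCLike.real_smul_eq_coe_smul (K := 𝕜)])
  exact key4 (fun α hα x hx => smul_mem_dualBall hα hx) (fun α hα x hx => smul_mem_ext hα hx)
    hg hhom

end Pool.Agent.KS6_11.LindExt
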