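import Pool.Graph.R_seed8.R197.C64.Main

/-!
# Extensions from the extreme points: range, equibounded finite rank approximants, uniqueness
-/
open Set Filter Topology MeasureTheory

namespace Pool.Agent.KS6_11.LindExt

open C64

/-- `g` is a strong extension of `f` from the extreme points of `X`. -/
def IsStrongExt (𝕜 : Type*) [RCLike 𝕜] {V : Type*} [AddCommGroup V] [Module ℝ V]
    [TopologicalSpace V] {F : Type*} [AddCommGroup F] [Module ℝ F] [Module 𝕜 F]
    [TopologicalSpace F] (X : Set V) (f g : V → F) : Prop :=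
  EqOn g f (X.extremePoints ℝ) ∧
    (∃ h : ℕ → V → F, (∀ n, A0 X (h n)) ∧
      (∀ x ∈ X, Tendsto (fun n => h n x) atTop (𝓝 (g x))) ∧
      (∀ n, ∃ W : Submodule 𝕜 F, FiniteDimensional 𝕜 W ∧ ∀ x, h n x ∈ W) ∧
      Bornology.IsVonNBounded ℝ (⋃ n, h n '' X)) ∧
    (∀ x ∈ X, g x ∈ closure (convexHull ℝ (f '' X.extremePoints ℝ))) ∧
    (∀ g' : V → F, A1 X g' → EqOn g' f (X.extremePoints ℝ) → EqOn g' g X)

section gen

variable {V : Type*} [AddCommGroup V] [Module ℝ V] [TopologicalSpace V]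
    [IsTopologicalAddGroup V] [ContinuousSMul ℝ V] [LocallyConvexSpace ℝ V] [T2Space V]

/-- A pointwise convergent sequence of continuous affine maps on a compact convex set is
bounded for every continuous seminorm. -/
theorem bdd_of_tendsto {F : Type*} [AddCommGroup F] [Module ℝ F] [TopologicalSpace F]
    {X : Set V} (hX : IsCompact X) (hc : Convex ℝ X) {h : ℕ → V → F} {g : V → F}
    (hh : ∀ n, A0 X (h n)) (hg : ∀ x ∈ X, Tendsto (fun n => h n x) atTop (𝓝 (g x)))
    (p : Seminorm ℝ F) (hp : Continuous p) : ∃ K : ℝ, ∀ n, ∀ x ∈ X, p (h n x) ≤ K := by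
  rcases X.eq_empty_or_nonempty with rfl | hne
  · exact ⟨0, fun n x hx => absurd hx (notMem_empty x)⟩
  have : CompactSpace X := isCompact_iff_compactSpace.1 hX
  have : Nonempty X := hne.to_subtype
  let C : ℕ → Set X := fun k => {x | ∀ n, p (h n x) ≤ k}
  have hCc : ∀ k, IsClosed (C k) := by
    intro k
    have : C k = ⋂ n, {x : X | p (h n x) ≤ k} := by
      ext x
      simp [C]
    rw [this]
    refine isClosed_iInter fun n => ?_
    have hcn : Continuous fun x : X => p (h n x) :=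
      hp.comp ((hh n).1.domRestrict)
    exact isClosed_le hcn continuous_const
  have hCu : ⋃ k, C k = univ := by
    rw [eq_univ_iff_forall]
    intro x
    have h1 : Tendsto (fun n => p (h n x)) atTop (𝓝 (p (g x))) :=
      (hp.tendsto _).comp (hg x x.2)
    obtain ⟨K, hK⟩ := h1.bddAbove_range
    obtain ⟨k, hk⟩ := exists_nat_ge K
    rw [mem_iUnion]
    exact ⟨k, fun n => (hK (mem_range_self n)).trans hk⟩
  obtain ⟨k, x0, hx0⟩ := nonempty_interior_of_iUnion_of_closed hCc hCu
  obtain ⟨U, hU, hUo, hxU⟩ := mem_interior.1 hx0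
  obtain ⟨U', hU', rfl⟩ := isOpen_induced_iff.1 hUo
  have hk : ∀ x ∈ X, x ∈ U' → ∀ n, p (h n x) ≤ k := by
    intro x hx hxU n
    exact hU (show (⟨x, hx⟩ : X) ∈ Subtype.val ⁻¹' U' from hxU) n
  have hev : ∀ᶠ t in 𝓝 (0 : ℝ), ∀ x ∈ X, t • x + (1 - t) • (x0 : V) ∈ U' := by
    apply hX.eventually_forall_of_forall_eventually
    intro x hx
    have hcont : Continuous fun z : ℝ × V => z.1 • z.2 + (1 - z.1) • (x0 : V) := by
      fun_prop
    have h0 : (fun z : ℝ × V => z.1 • z.2 + (1 - z.1) • (x0 : V)) (0, x) = x0 := by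
      simp
    have : U' ∈ 𝓝 ((fun z : ℝ × V => z.1 • z.2 + (1 - z.1) • (x0 : V)) (0, x)) := by
      rw [h0]
      exact hU'.mem_nhds hxU
    exact hcont.continuousAt this
  have hev2 : ∀ᶠ t in 𝓝[>] (0 : ℝ), (∀ x ∈ X, t • x + (1 - t) • (x0 : V) ∈ U') ∧ t < 1 ∧ 0 < t := by
    refine (hev.filter_mono nhdsWithin_le_nhds).and (Filter.Eventually.and ?_ ?_)
    · exact (eventually_lt_nhds one_pos).filter_mono nhdsWithin_le_nhds
    · exact self_mem_nhdsWithin
  obtain ⟨t, ht, ht1, ht0⟩ := hev2.exists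
  refine ⟨(2 * k) / t, fun n x hx => ?_⟩
  have hx0X : (x0 : V) ∈ X := x0.2
  have hyX : t • x + (1 - t) • (x0 : V) ∈ X :=
    hc hx hx0X ht0.le (by linarith) (by ring)
  have h1 := hk _ hyX (ht x hx) n
  have h2 := hk _ hx0X hxU n
  have h3 := (hh n).2 x hx x0 hx0X t ⟨ht0.le, ht1.le⟩
  have h4 : t • h n x = h n (t • x + (1 - t) • (x0 : V)) - (1 - t) • h n x0 := by
    rw [h3]
    abel
  have h5 : t * p (h n x) = p (t • h n x) := by
    rw [map_smul_eq_mul, Real.norm_of_nonneg ht0.le]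
  have h6 : p (t • h n x) ≤ k + (1 - t) * k := by
    rw [h4]
    refine (map_sub_le_add _ _ _).trans (add_le_add h1 ?_)
    rw [map_smul_eq_mul, Real.norm_of_nonneg (by linarith)]
    exact mul_le_mul_of_nonneg_left h2 (by linarith)
  rw [le_div_iff₀ ht0]
  have hk0 : (0 : ℝ) ≤ k := Nat.cast_nonneg k
  nlinarith

/-- Uniqueness of affine Baire-one maps with given values on the extreme points. -/
theorem A1_unique {F : Type*} [AddCommGroup F] [Module ℝ F] [UniformSpace F]
    [IsUniformAddGroup F] [ContinuousSMul ℝ F] [LocallyConvexSpace ℝ F] [T2Space F]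
    [FirstCountableTopology F]
    {X : Set V} (hX : IsCompact X) (hc : Convex ℝ X) {g g' : V → F}
    (hg : A1 X g) (hg' : A1 X g') (he : EqOn g g' (X.extremePoints ℝ)) : EqOn g g' X := by
  obtain ⟨q, hq⟩ := exists_SN (𝕜 := ℝ) (F := F)
  obtain ⟨h, hh, hl⟩ := hg
  obtain ⟨h', hh', hl'⟩ := hg'
  intro x hx
  have haff : ∀ k, IsAffOn X (fun z => h k z - h' k z) := by
    intro k x hx y hy t ht
    change h k (t • x + (1 - t) • y) - h' k (t • x + (1 - t) • y) = _
    rw [(hh k).2 x hx y hy t ht, (hh' k).2 x hx y hy t ht]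
    simp only [smul_sub]
    abel
  have hz : Tendsto (fun n => h n x - h' n x) atTop (𝓝 0) := by
    rw [hq.tendsto_iff]
    intro j
    obtain ⟨K, hK⟩ := bdd_of_tendsto hX hc hh hl (q j) (hq.cont j)
    obtain ⟨K', hK'⟩ := bdd_of_tendsto hX hc hh' hl' (q j) (hq.cont j)
    have h1 := L_b hX hc (G := fun n z => q j (h n z - h' n z)) (K := K + K')
      (fun k => (hq.cont j).comp_continuousOn ((hh k).1.sub (hh' k).1))
      (fun k => convexOn_sn hc (q j) (haff k))
      (fun k x hx => ⟨apply_nonneg _ _,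
        (map_sub_le_add _ _ _).trans (add_le_add (hK k x hx) (hK' k x hx))⟩)
      (by
        intro y hy
        have h2 := (hl y hy.1).sub (hl' y hy.1)
        rw [he hy, sub_self] at h2
        have h3 := ((hq.cont j).tendsto 0).comp h2
        rw [map_zero] at h3
        exact h3) x hx
    simpa using h1
  have h4 := (hl x hx).sub (hl' x hx)
  exact sub_eq_zero.1 (tendsto_nhds_unique h4 hz)

theorem vonN_of_sn {𝕜 : Type*} [RCLike 𝕜]
    {F : Type*} [AddCommGroup F] [Module ℝ F] [Module 𝕜 F] [IsScalarTower ℝ 𝕜 F] [UniformSpace F]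
    [IsUniformAddGroup F] [ContinuousSMul 𝕜 F] [ContinuousSMul ℝ F] [LocallyConvexSpace ℝ F]
    {q : ℕ → Seminorm 𝕜 F} (hq : SN q) {S : Set F} (hS : ∀ j, ∃ C : ℝ, ∀ v ∈ S, q j v ≤ C) :
    Bornology.IsVonNBounded ℝ S := by
  rw [Bornology.IsVonNBounded]
  intro U hU
  obtain ⟨j, hj⟩ := hq.basis U hU
  obtain ⟨C, hC⟩ := hS j
  rw [absorbs_iff_norm]
  refine ⟨|C| + 1, fun c hc v hv => ?_⟩
  have hc0 : 0 < ‖c‖ := lt_of_lt_of_le (by positivity) hc
  have hcne : c ≠ 0 := norm_pos_iff.1 hc0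
  refine ⟨c⁻¹ • v, hj ?_, ?_⟩
  · have h1 : c⁻¹ • v = ((c⁻¹ : ℝ) : 𝕜) • v := by
      rw [RCLike.real_smul_eq_coe_smul (K := 𝕜)]
    change q j (c⁻¹ • v) < 1
    rw [h1, map_smul_eq_mul, RCLike.norm_ofReal, abs_inv, inv_mul_lt_iff₀ (by simpa using hc0)]
    have h2 := hC v hv
    have h3 := le_abs_self C
    have h4 : |c| = ‖c‖ := (Real.norm_eq_abs c).symm
    rw [h4]
    linarith
  · exact smul_inv_smul₀ hcne v

theorem strongExt_empty {𝕜 : Type*} [RCLike 𝕜]
    {F : Type*} [AddCommGroup F] [Module ℝ F] [Module 𝕜 F] [TopologicalSpace F]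
    (f : V → F) : IsStrongExt 𝕜 (∅ : Set V) f (fun _ => 0) := by
  refine ⟨?_, ⟨fun _ _ => 0, ?_, ?_, ?_, ?_⟩, ?_, ?_⟩
  · intro y hy
    exact absurd hy.1 (notMem_empty y)
  · intro n
    exact ⟨continuousOn_empty _, fun x hx => absurd hx (notMem_empty x)⟩
  · intro x hx
    exact absurd hx (notMem_empty x)
  · intro n
    exact ⟨⊥, inferInstance, fun x => Submodule.zero_mem _⟩
  · simp
  · intro x hx
    exact absurd hx (notMem_empty x)
  · intro g' _ _ x hx
    exact absurd hx (notMem_empty x)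

theorem strongExt_of {𝕜 : Type*} [RCLike 𝕜]
    {F : Type*} [AddCommGroup F] [Module ℝ F] [Module 𝕜 F] [IsScalarTower ℝ 𝕜 F] [UniformSpace F]
    [IsUniformAddGroup F] [ContinuousSMul 𝕜 F] [ContinuousSMul ℝ F] [LocallyConvexSpace ℝ F]
    [T2Space F] [CompleteSpace F] [FirstCountableTopology F]
    {X : Set V} (hX : IsCompact X) (hc : Convex ℝ X) {f g : V → F} {h : ℕ → V → F}
    (hh : ∀ n, A0 X (h n))
    (hfin : ∀ n, ∃ W : Submodule 𝕜 F, FiniteDimensional 𝕜 W ∧ ∀ x, h n x ∈ W)
    (hvn : Bornology.IsVonNBounded ℝ (⋃ n, h n '' X))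
    (hg : ∀ x ∈ X, Tendsto (fun n => h n x) atTop (𝓝 (g x)))
    (he : EqOn g f (X.extremePoints ℝ)) : IsStrongExt 𝕜 X f g := by
  refine ⟨he, ⟨h, hh, hg, hfin, hvn⟩, ?_, ?_⟩
  · intro x hx
    by_contra hcon
    obtain ⟨ℓ, u, hu1, hu2⟩ := geometric_hahn_banach_closed_point
      (convex_convexHull ℝ (f '' X.extremePoints ℝ)).closure isClosed_closure hcon
    have hb : Bornology.IsVonNBounded ℝ (ℓ '' ⋃ n, h n '' X) := hvn.image ℓ
    rw [NormedSpace.isVonNBounded_iff, isBounded_iff_forall_norm_le] at hb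
    obtain ⟨K, hK⟩ := hb
    have h1 := L_b hX hc (G := fun n z => max (ℓ (h n z) - u) 0) (K := |K| + |u|)
      (fun k => ((ℓ.continuous.comp_continuousOn (hh k).1).sub continuousOn_const).sup
        continuousOn_const)
      (fun k => by
        refine ConvexOn.sup ⟨hc, ?_⟩ (convexOn_const 0 hc)
        intro a ha b hb s t hs ht hst
        have ht' : t = 1 - s := by linarith
        subst ht'
        change ℓ (h k (s • a + (1 - s) • b)) - u ≤ s • (ℓ (h k a) - u) + (1 - s) • (ℓ (h k b) - u)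
        rw [(hh k).2 a ha b hb s ⟨hs, by linarith⟩, map_add, map_smul, map_smul]
        simp only [smul_eq_mul]
        linarith)
      (fun k z hz => by
        refine ⟨le_max_right _ _, max_le ?_ (by positivity)⟩
        have h2 := hK (ℓ (h k z)) ⟨h k z, mem_iUnion.2 ⟨k, z, hz, rfl⟩, rfl⟩
        have h3 := le_abs_self (ℓ (h k z))
        rw [Real.norm_eq_abs] at h2
        have h4 := le_abs_self K
        have h5 := neg_abs_le u
        linarith)
      (fun y hy => by
        have h2 : Tendsto (fun n => ℓ (h n y)) atTop (𝓝 (ℓ (f y))) := by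
          rw [← he hy]
          exact (ℓ.continuous.tendsto _).comp (hg y hy.1)
        have h3 : ℓ (f y) < u :=
          hu1 _ (subset_closure (subset_convexHull ℝ _ (mem_image_of_mem f hy)))
        have h4 := (h2.eventually_lt_const h3)
        refine tendsto_const_nhds.congr' ?_
        filter_upwards [h4] with n hn
        rw [max_eq_right]
        linarith) x hx
    have h2 : Tendsto (fun n => max (ℓ (h n x) - u) 0) atTop (𝓝 (max (ℓ (g x) - u) 0)) := by
      have h3 : Tendsto (fun n => ℓ (h n x)) atTop (𝓝 (ℓ (g x))) :=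
        (ℓ.continuous.tendsto _).comp (hg x hx)
      exact (h3.sub_const u).max tendsto_const_nhds
    have h3 := tendsto_nhds_unique h1 h2
    have h4 : 0 < max (ℓ (g x) - u) 0 := lt_max_of_lt_left (by linarith)
    linarith
  · intro g' hg' he'
    exact A1_unique hX hc hg' ⟨h, hh, hg⟩ (fun y hy => (he' hy).trans (he hy).symm)

end gen

theorem vector_ext_strong {𝕜 : Type*} [RCLike 𝕜]
    {V : Type*} [AddCommGroup V] [Module ℝ V] [Module 𝕜 V] [TopologicalSpace V]
    [IsTopologicalAddGroup V] [ContinuousSMul ℝ V] [LocallyConvexSpace ℝ V] [T2Space V]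
    {F : Type*} [AddCommGroup F] [Module ℝ F] [Module 𝕜 F] [IsScalarTower ℝ 𝕜 F] [UniformSpace F]
    [IsUniformAddGroup F] [ContinuousSMul 𝕜 F] [ContinuousSMul ℝ F] [LocallyConvexSpace ℝ F]
    [T2Space F] [CompleteSpace F] [FirstCountableTopology F]
    {X : Set V} (hX : IsCompact X) (hc : Convex ℝ X) (hL : IsLindelof (X.extremePoints ℝ))
    (Γ : Set 𝕜) (hΓ : ∀ α ∈ Γ, ‖α‖ = 1)
    (hst : ∀ α ∈ Γ, ∀ y ∈ X.extremePoints ℝ, α • y ∈ X.extremePoints ℝ)
    (hP : ∀ y₀ ∈ X.extremePoints ℝ, ∃ σ : V → 𝕜, ContinuousOn σ (X.extremePoints ℝ) ∧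
      (∀ α ∈ Γ, ∀ y ∈ X.extremePoints ℝ, σ (α • y) = α * σ y) ∧
      (∀ y ∈ X.extremePoints ℝ, ‖σ y‖ ≤ 1) ∧ σ y₀ ≠ 0)
    (hSA : ∀ ψ : V → 𝕜, ContinuousOn ψ (X.extremePoints ℝ) →
      (∀ α ∈ Γ, ∀ y ∈ X.extremePoints ℝ, ψ (α • y) = α * ψ y) →
      (∀ y ∈ X.extremePoints ℝ, ‖ψ y‖ ≤ 1) →
      ∃ a : ℕ → V → 𝕜, (∀ n, A0 X (a n)) ∧ (∀ n, ∀ x ∈ X, ‖a n x‖ ≤ 2) ∧
        ∀ y ∈ X.extremePoints ℝ, Tendsto (fun n => a n y) atTop (𝓝 (ψ y)))
    (f : V → F) (hf : ContinuousOn f (X.extremePoints ℝ))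
    (hb : Bornology.IsVonNBounded ℝ (f '' X.extremePoints ℝ))
    (hhom : ∀ α ∈ Γ, ∀ y ∈ X.extremePoints ℝ, f (α • y) = α • f y) :
    ∃ g : V → F, IsStrongExt 𝕜 X f g := by
  classical
  by_cases hE : (X.extremePoints ℝ).Nonempty
  swap
  · have hXe : X = ∅ := by
      by_contra h
      exact hE (hX.extremePoints_nonempty (nonempty_iff_ne_empty.2 h))
    subst hXe
    exact ⟨_, strongExt_empty f⟩
  obtain ⟨q, hq⟩ := exists_SN (𝕜 := 𝕜) (F := F)
  have hfg : VGood (X.extremePoints ℝ) Γ q f := by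
    refine ⟨hf, hhom, fun k => ?_⟩
    obtain ⟨C, hC⟩ := hq.bounded hb k
    exact ⟨C, fun y hy => hC _ (mem_image_of_mem _ hy)⟩
  obtain ⟨r, ψ, w, g, hr0, hr, hgood, hpart⟩ := claim2 hq hE hL hΓ hst hP hfg
  choose B hBs hB0 hB using fun j => bounds hq hr hgood hpart j
  have hW : ∀ j m i, q j (w m i) ≤ B j m := by
    intro j m i
    obtain ⟨y, hy, hy'⟩ := (hpart m).val i
    rw [hy']
    exact hB j m y hy
  have hrM : ∀ M y, r M y = f y - ∑ m ∈ Finset.range M, g m y := by
    intro M y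
    induction M with
    | zero => simp [hr0]
    | succ M ih =>
      rw [hr, ih, Finset.sum_range_succ]
      abel
  -- scalar approximations
  choose a ha0 ha2 hal using fun m i => hSA (ψ m i) ((hpart m).cont i) ((hpart m).hom i)
    (fun y hy => le_hasSum ((hpart m).sum y hy) i (fun k _ => norm_nonneg _))
  choose b hb0 hb2 hbl using fun m => claim3 hX hc (ψ m) (a m) (ha0 m) (ha2 m) (hal m)
    (hpart m).sum
  let h : ℕ → V → F := fun N x =>
    ∑ m ∈ Finset.range N, ∑ i ∈ Finset.range N, b m N i x • w m i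
  have hh0 : ∀ N, A0 X (h N) := fun N =>
    A0.sum _ fun m _ => A0.sum _ fun i _ => (hb0 m N i).smul_vec (w m i)
  -- bounds on `X`
  have hhX : ∀ j N, ∀ x ∈ X, q j (h N x) ≤ 2 * ∑' m, B j m := by
    intro j N x hx
    calc q j (h N x) ≤ ∑ m ∈ Finset.range N, ∑ i ∈ Finset.range N, ‖b m N i x‖ * B j m := by
          refine (sn_sum _ _ _).trans (Finset.sum_le_sum fun m _ => ?_)
          refine (sn_sum _ _ _).trans (Finset.sum_le_sum fun i _ => ?_)
          rw [map_smul_eq_mul]
          exact mul_le_mul_of_nonneg_left (hW j m i) (norm_nonneg _)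
      _ ≤ ∑ m ∈ Finset.range N, 2 * B j m := by
          refine Finset.sum_le_sum fun m _ => ?_
          rw [← Finset.sum_mul]
          exact mul_le_mul_of_nonneg_right (hb2 m N x hx) (hB0 j m)
      _ = 2 * ∑ m ∈ Finset.range N, B j m := by rw [Finset.mul_sum]
      _ ≤ 2 * ∑' m, B j m := by
          have := (hBs j).sum_le_tsum (Finset.range N) (fun m _ => hB0 j m)
          linarith
  -- convergence on the extreme points
  have hhE : ∀ y ∈ X.extremePoints ℝ, Tendsto (fun N => h N y) atTop (𝓝 (f y)) := by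
    intro y hy
    have hyX : y ∈ X := hy.1
    rw [hq.tendsto_iff]
    intro j
    let D : ℕ → ℕ → ℝ := fun m N => (∑ i ∈ Finset.range N, ‖b m N i y - ψ m i y‖) +
      (1 - ∑ i ∈ Finset.range N, ‖ψ m i y‖)
    have hle1 : ∀ m N, ∑ i ∈ Finset.range N, ‖ψ m i y‖ ≤ 1 := fun m N =>
      sum_le_hasSum _ (fun i _ => norm_nonneg _) ((hpart m).sum y hy)
    have hD0 : ∀ m N, 0 ≤ D m N := by
      intro m N
      have h1 := hle1 m N
      have h2 : 0 ≤ ∑ i ∈ Finset.range N, ‖b m N i y - ψ m i y‖ :=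
        Finset.sum_nonneg fun i _ => norm_nonneg _
      change 0 ≤ (∑ i ∈ Finset.range N, ‖b m N i y - ψ m i y‖) +
        (1 - ∑ i ∈ Finset.range N, ‖ψ m i y‖)
      linarith
    have hD4 : ∀ m N, D m N ≤ 4 := by
      intro m N
      have h1 := hle1 m N
      have h2 : ∑ i ∈ Finset.range N, ‖b m N i y - ψ m i y‖ ≤
          (∑ i ∈ Finset.range N, ‖b m N i y‖) + ∑ i ∈ Finset.range N, ‖ψ m i y‖ := by
        rw [← Finset.sum_add_distrib]
        exact Finset.sum_le_sum fun i _ => norm_sub_le _ _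
      have h3 := hb2 m N y hyX
      have h4 : 0 ≤ ∑ i ∈ Finset.range N, ‖ψ m i y‖ :=
        Finset.sum_nonneg fun i _ => norm_nonneg _
      change (∑ i ∈ Finset.range N, ‖b m N i y - ψ m i y‖) +
        (1 - ∑ i ∈ Finset.range N, ‖ψ m i y‖) ≤ 4
      linarith
    have hDl : ∀ m, Tendsto (fun N => D m N) atTop (𝓝 0) := by
      intro m
      have h1 := hbl m y hy
      have h2 : Tendsto (fun N => 1 - ∑ i ∈ Finset.range N, ‖ψ m i y‖) atTop (𝓝 0) := by
        have := ((hpart m).sum y hy).tendsto_sum_nat.const_sub 1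
        simpa using this
      simpa using h1.add h2
    have hterm : ∀ m N, q j ((∑ i ∈ Finset.range N, b m N i y • w m i) - g m y) ≤
        B j m * D m N := by
      intro m N
      have h1 : (∑ i ∈ Finset.range N, b m N i y • w m i) - g m y =
          (∑ i ∈ Finset.range N, (b m N i y - ψ m i y) • w m i) -
          (g m y - ∑ i ∈ Finset.range N, ψ m i y • w m i) := by
        simp only [sub_smul, Finset.sum_sub_distrib]
        abel
      rw [h1]
      refine (map_sub_le_add _ _ _).trans ?_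
      have h2 := tail_est hq.cont ((hpart m).sum y hy) (hW j m) ((hpart m).lim y hy) N
      have h3 : q j (∑ i ∈ Finset.range N, (b m N i y - ψ m i y) • w m i) ≤
          B j m * ∑ i ∈ Finset.range N, ‖b m N i y - ψ m i y‖ := by
        refine (sn_sum _ _ _).trans ?_
        rw [Finset.mul_sum]
        refine Finset.sum_le_sum fun i _ => ?_
        rw [map_smul_eq_mul, mul_comm]
        exact mul_le_mul_of_nonneg_right (hW j m i) (norm_nonneg _)
      calc _ ≤ B j m * (∑ i ∈ Finset.range N, ‖b m N i y - ψ m i y‖) +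
            B j m * (1 - ∑ i ∈ Finset.range N, ‖ψ m i y‖) := add_le_add h3 h2
        _ = B j m * D m N := by
          change _ = B j m * ((∑ i ∈ Finset.range N, ‖b m N i y - ψ m i y‖) +
            (1 - ∑ i ∈ Finset.range N, ‖ψ m i y‖))
          ring
    have hsm : Summable fun m => B j m * 4 := (hBs j).mul_right 4
    have hdom : Tendsto (fun N => ∑' m, B j m * D m N) atTop (𝓝 (∑' _m : ℕ, (0 : ℝ))) := by
      apply tendsto_tsum_of_dominated_convergence hsm
      · intro m
        have := (hDl m).const_mul (B j m)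
        simpa using this
      · refine Eventually.of_forall fun N m => ?_
        rw [Real.norm_of_nonneg (mul_nonneg (hB0 j m) (hD0 m N))]
        exact mul_le_mul_of_nonneg_left (hD4 m N) (hB0 j m)
    rw [tsum_zero] at hdom
    have hBz : Tendsto (fun N => B j N) atTop (𝓝 0) := (hBs j).tendsto_atTop_zero
    have hsum0 := hdom.add hBz
    rw [add_zero] at hsum0
    refine squeeze_zero (fun N => apply_nonneg _ _) (fun N => ?_) hsum0
    have h1 : h N y - f y = (∑ m ∈ Finset.range N,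
        ((∑ i ∈ Finset.range N, b m N i y • w m i) - g m y)) - r N y := by
      rw [hrM, Finset.sum_sub_distrib]
      change (∑ m ∈ Finset.range N, ∑ i ∈ Finset.range N, b m N i y • w m i) - f y = _
      abel
    rw [h1]
    refine (map_sub_le_add _ _ _).trans (add_le_add ?_ (hB j N y hy))
    refine (sn_sum _ _ _).trans ?_
    refine (Finset.sum_le_sum fun m _ => hterm m N).trans ?_
    apply Summable.sum_le_tsum
    · intro m _
      exact mul_nonneg (hB0 j m) (hD0 m N)
    · apply Summable.of_nonneg_of_le (fun m => mul_nonneg (hB0 j m) (hD0 m N)) (fun m => ?_) hsm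
      exact mul_le_mul_of_nonneg_left (hD4 m N) (hB0 j m)
  -- convergence on `X`
  have hlim : ∀ x ∈ X, ∃ v, Tendsto (fun N => h N x) atTop (𝓝 v) := by
    intro x hx
    apply hq.exists_limit
    by_contra hcon
    push Not at hcon
    obtain ⟨j, δ, hδ, hcon⟩ := hcon
    choose M hM N hN hMN using hcon
    let G : ℕ → V → ℝ := fun k z => q j (h (M k) z - h (N k) z)
    have haff : ∀ k, IsAffOn X (fun z => h (M k) z - h (N k) z) := by
      intro k x hx y hy t ht
      change h (M k) (t • x + (1 - t) • y) - h (N k) (t • x + (1 - t) • y) = _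
      rw [(hh0 (M k)).2 x hx y hy t ht, (hh0 (N k)).2 x hx y hy t ht]
      simp only [smul_sub]
      abel
    have hG := L_b hX hc (G := G) (K := 4 * ∑' m, B j m)
      (fun k => (hq.cont j).comp_continuousOn ((hh0 (M k)).1.sub (hh0 (N k)).1))
      (fun k => convexOn_sn hc (q j) (haff k))
      (fun k x hx => ⟨apply_nonneg _ _, by
        refine (map_sub_le_add _ _ _).trans ?_
        have h1 := hhX j (M k) x hx
        have h2 := hhX j (N k) x hx
        linarith⟩)
      (by
        intro y hy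
        have h1 := (hq.tendsto_iff.1 (hhE y hy) j)
        have h2 : Tendsto (fun k => q j (h (M k) y - f y)) atTop (𝓝 0) :=
          h1.comp (tendsto_atTop_mono (fun k => hM k) tendsto_id)
        have h3 : Tendsto (fun k => q j (h (N k) y - f y)) atTop (𝓝 0) :=
          h1.comp (tendsto_atTop_mono (fun k => hN k) tendsto_id)
        have h4 := h2.add h3
        rw [add_zero] at h4
        refine squeeze_zero (fun k => apply_nonneg _ _) (fun k => ?_) h4
        have h5 : h (M k) y - h (N k) y = (h (M k) y - f y) - (h (N k) y - f y) := by abel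
        change q j (h (M k) y - h (N k) y) ≤ _
        rw [h5]
        exact map_sub_le_add _ _ _) x hx
    have h1 := hG.eventually_lt_const hδ
    obtain ⟨k, hk⟩ := h1.exists
    exact absurd (hMN k) (not_le.2 hk)
  have hlim' : ∀ x, ∃ v, x ∈ X → Tendsto (fun N => h N x) atTop (𝓝 v) := by
    intro x
    by_cases hx : x ∈ X
    · obtain ⟨v, hv⟩ := hlim x hx
      exact ⟨v, fun _ => hv⟩
    · exact ⟨0, fun h => absurd h hx⟩
  choose G hG using hlim'
  have hGf : EqOn G f (X.extremePoints ℝ) := by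
    intro y hy
    exact tendsto_nhds_unique (hG y hy.1) (hhE y hy)
  have hvn : Bornology.IsVonNBounded ℝ (⋃ n, h n '' X) := by
    apply vonN_of_sn hq
    intro j
    refine ⟨2 * ∑' m, B j m, ?_⟩
    intro v hv
    obtain ⟨n, hn⟩ := mem_iUnion.1 hv
    obtain ⟨x, hx, rfl⟩ := hn
    exact hhX j n x hx
  have hfin : ∀ n, ∃ W : Submodule 𝕜 F, FiniteDimensional 𝕜 W ∧ ∀ x, h n x ∈ W := by
    intro n
    refine ⟨Submodule.span 𝕜 (Set.range fun p : Fin n × Fin n => w p.1 p.2),
      FiniteDimensional.span_of_finite 𝕜 (Set.finite_range _), ?_⟩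
    intro x
    refine Submodule.sum_mem _ fun m hm => Submodule.sum_mem _ fun i hi => ?_
    refine Submodule.smul_mem _ _ (Submodule.subset_span ?_)
    exact ⟨(⟨m, Finset.mem_range.1 hm⟩, ⟨i, Finset.mem_range.1 hi⟩), rfl⟩
  exact ⟨G, strongExt_of hX hc hh0 hfin hvn (fun x hx => hG x hx) hGf⟩

end Pool.Agent.KS6_11.LindExt
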